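import Mathlib.RingTheory.AlgebraicIndependent.TranscendenceBasis
import Mathlib.Combinatorics.Matroid.Rank.ENat
import Mathlib.RingTheory.MvPolynomial.EulerIdentity
import Mathlib.Algebra.Algebra.Rat

/-! The quintic form with generic coefficients has no singular point. -/

namespace Pool.Agent.MP_5fa3de_ag.Q5

open Finset

/-- The index set of the nine linear forms. -/
abbrev Ix : Type := Option (Fin 4 ⊕ Fin 4)

section Model

variable {R R' : Type} [CommRing R] [CommRing R'] (a : Ix → Fin 6 → R) (y : Fin 6 → R)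

/-- Linear forms. -/
def lin (c : Fin 6 → R) : R := ∑ j, c j * y j

/-- The positions of the four distinguished coordinates. -/
def ix : Fin 4 → Fin 6 := ![0, 2, 3, 4]

/-- Products of distinguished coordinates. -/
def pp (I : Finset (Fin 4)) : R := ∏ j ∈ Iᶜ, y (ix j)

/-- The fixed parts of the quadrics. -/
def g0 : Fin 4 → R := ![y 1 ^ 2, y 5 ^ 2, (∑ j, y (ix j)) ^ 2, (∑ j, y (ix j)) ^ 2]

/-- The monomials. -/
def ee : Ix → R
  | none => pp y ∅
  | some (.inl i) => y (ix i)
  | some (.inr l) => pp y {l}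

/-- The forms. -/
def ss : Ix → R
  | none => lin y (a none)
  | some (.inl i) => g0 y i + y (ix i) * lin y (a (some (.inl i)))
  | some (.inr l) => lin y (a (some (.inr l)))

/-- The exponents. -/
def dd : Ix → ℕ
  | none => 1
  | some _ => 2

/-- The quintic form. -/
def qf : R := ∑ k, ee y k * ss a y k ^ dd k

/-- The cofactor of a distinguished coordinate. -/
def cc (i : Fin 4) : R := ss a y (some (.inl i)) ^ 2 +
  ∑ l ∈ univ.erase i, pp y {i, l} * ss a y (some (.inr l)) ^ 2 + pp y {i} * ss a y none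

variable (f : R →+* R')

theorem map_lin (c : Fin 6 → R) : f (lin y c) = lin (fun j => f (y j)) fun j => f (c j) := by
  simp [lin]

theorem map_pp (I : Finset (Fin 4)) : f (pp y I) = pp (fun j => f (y j)) I := by simp [pp]

theorem map_g0 (i : Fin 4) : f (g0 y i) = g0 (fun j => f (y j)) i := by
  fin_cases i <;> simp [g0]

theorem map_ee (k : Ix) : f (ee y k) = ee (fun j => f (y j)) k := by
  rcases k with _ | i | i <;> simp [ee, map_pp]

theorem map_ss (k : Ix) :
    f (ss a y k) = ss (fun k j => f (a k j)) (fun j => f (y j)) k := by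
  rcases k with _ | i | i <;> simp [ss, map_lin, map_g0]

theorem map_qf : f (qf a y) = qf (fun k j => f (a k j)) fun j => f (y j) := by
  simp [qf, map_ee, map_ss]

theorem map_cc (i : Fin 4) : f (cc a y i) = cc (fun k j => f (a k j)) (fun j => f (y j)) i := by
  simp [cc, map_pp, map_ss]

theorem pp_ins {I : Finset (Fin 4)} {i : Fin 4} (h : i ∉ I) :
    pp y I = y (ix i) * pp y (insert i I) := by
  rw [pp, pp, compl_insert, mul_prod_erase _ (fun j => y (ix j)) (mem_compl.2 h)]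

theorem pp_zero {I : Finset (Fin 4)} {i : Fin 4} (h : i ∉ I) (h0 : y (ix i) = 0) : pp y I = 0 := by
  rw [pp_ins y h, h0, zero_mul]

theorem qf_eq : qf a y = ∑ k : Fin 4 ⊕ Fin 4, ee y (some k) * ss a y (some k) ^ 2 +
    pp y ∅ * ss a y none := by
  rw [qf, Fintype.sum_option, add_comm]
  simp only [dd, ee, pow_one]

theorem mul_cc (i : Fin 4) : y (ix i) * cc a y i = ee y (some (.inl i)) * ss a y (some (.inl i)) ^ 2 +
    ∑ l ∈ univ.erase i, ee y (some (.inr l)) * ss a y (some (.inr l)) ^ 2 +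
      pp y ∅ * ss a y none := by
  rw [cc, mul_add, mul_add, mul_sum, pp_ins y (notMem_empty i), insert_empty_eq, mul_assoc]
  congr 2
  refine sum_congr rfl fun l hl => ?_
  rw [ee, pp_ins y (I := {l}) (i := i) (by simpa using (mem_erase.1 hl).1.symm), mul_assoc]

theorem qf_cc (i : Fin 4) : qf a y = y (ix i) * cc a y i +
    (∑ j ∈ univ.erase i, ee y (some (.inl j)) * ss a y (some (.inl j)) ^ 2 +
      ee y (some (.inr i)) * ss a y (some (.inr i)) ^ 2) := by
  rw [qf_eq, mul_cc, Fintype.sum_sum_type, ← add_sum_erase _ _ (mem_univ i),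
    ← add_sum_erase _ (fun l => ee y (some (.inr l)) * ss a y (some (.inr l)) ^ 2) (mem_univ i)]
  ring

variable {a y} in
theorem mem_all {K : Subring R} (hy : ∀ j, y j ∈ K) : (∀ I, pp y I ∈ K) ∧ (∀ i, g0 y i ∈ K) ∧
    (∀ k, lin y (a k) ∈ K → ss a y k ∈ K) ∧ ∀ k, ee y k ∈ K := by
  have h : ∀ i, g0 y i ∈ K := fun i => by
    have := pow_mem (sum_mem (t := univ) fun j _ => hy (ix j)) 2
    fin_cases i
    exacts [pow_mem (hy 1) 2, pow_mem (hy 5) 2, this, this]
  have h' : ∀ I, pp y I ∈ K := fun I => prod_mem fun j _ => hy _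
  refine ⟨h', h, ?_, ?_⟩
  · rintro (_ | i | i) hk
    exacts [hk, add_mem (h i) (mul_mem (hy _) hk), hk]
  · rintro (_ | i | i)
    exacts [h' _, hy _, h' _]

end Model

section Count

variable {T : Type} [Field T] [CharZero T]

/-- Subrings closed under division and roots. -/
def Cl (K : Subring T) : Prop := ∀ c z n, c ∈ K → c ≠ 0 → n ≠ 0 → c * z ^ n ∈ K → z ∈ K

theorem cnt {ι : Type} [Fintype ι] {a : ι → T} (ha : AlgebraicIndependent ℚ a) (S : Finset ι)
    (P : Finset T) (h : P.card < S.card) (H : ∀ K : Subring T, Cl K → (∀ z ∈ P, z ∈ K) →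
      (∀ i ∉ S, a i ∈ K) → ∀ i ∈ S, a i ∈ K) : False := by
  classical
  let X : Finset T := Sᶜ.image a ∪ P
  let K := Subalgebra.algebraicClosure (Algebra.adjoin ℚ (X : Set T)) T
  have hX : ∀ z ∈ X, z ∈ K.toSubring := fun z hz =>
    isAlgebraic_algebraMap (⟨z, Algebra.subset_adjoin hz⟩ : Algebra.adjoin ℚ (X : Set T))
  have h1 : ∀ i ∉ S, a i ∈ K.toSubring := fun i hi =>
    hX _ (mem_union_left _ (mem_image_of_mem a (mem_compl.2 hi)))
  have h2 := H K.toSubring (fun c z n hc c0 n0 h => IsAlgebraic.of_pow (Nat.pos_of_ne_zero n0)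
    (IsAlgebraic.of_mul (mem_nonZeroDivisors_of_ne_zero c0) hc h))
    (fun z hz => hX z (mem_union_right _ hz)) h1
  have h3 : (AlgebraicIndependent.matroid ℚ T).Indep (univ.image a : Finset T) := by
    rw [coe_image, coe_univ, Set.image_univ]
    exact ha.to_subtype_range
  have h4 := (h3.encard_le_eRk_of_subset (X := (AlgebraicIndependent.matroid ℚ T).closure X) (by
    rw [AlgebraicIndependent.matroid_closure_eq]
    intro z hz
    obtain ⟨i, -, rfl⟩ := mem_image.1 hz
    by_cases hi : i ∈ S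
    exacts [h2 i hi, h1 i hi])).trans
      ((Matroid.eRk_closure_eq _ _).le.trans (Matroid.eRk_le_encard _ _))
  rw [Set.encard_coe_eq_coe_finsetCard, Set.encard_coe_eq_coe_finsetCard, Nat.cast_le,
    card_image_of_injective _ ha.injective] at h4
  have h5 : X.card ≤ Sᶜ.card + P.card :=
    (card_union_le _ _).trans (Nat.add_le_add_right card_image_le _)
  have h6 := card_add_card_compl S
  rw [card_univ] at h4
  omega

variable {a : Ix → Fin 6 → T} (ha : AlgebraicIndependent ℚ fun p : Ix × Fin 6 => a p.1 p.2)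
  {y : Fin 6 → T} {j0 : Fin 6} (h1 : y j0 = 1)

include ha h1

theorem cnt2 (Z : Finset (Fin 6)) (hZ : ∀ j ∈ Z, y j = 0) (S : Finset (Ix × Fin 6))
    (h : 5 < S.card + Z.card) (H : ∀ K : Subring T, Cl K → (∀ j, y j ∈ K) →
      (∀ k j, (k, j) ∉ S → a k j ∈ K) → ∀ k j, (k, j) ∈ S → a k j ∈ K) : False := by
  classical
  have h0 : j0 ∉ Z := fun h => by simpa [h1] using hZ j0 h
  refine cnt ha S ((insert j0 Z)ᶜ.image y) (card_image_le.trans_lt ?_) fun K hK hP hS p hp =>
    H K hK (fun j => ?_) (fun k j h => hS (k, j) h) _ _ hp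
  · rw [card_compl, card_insert_of_notMem h0, Fintype.card_fin]
    have := card_le_univ (insert j0 Z)
    rw [card_insert_of_notMem h0, Fintype.card_fin] at this
    omega
  · by_cases e : j ∈ insert j0 Z
    · rcases mem_insert.1 e with rfl | e
      · exact h1 ▸ one_mem _
      · exact hZ j e ▸ zero_mem _
    · exact hP _ (mem_image_of_mem y (mem_compl.2 e))

theorem cnt3 (Z : Finset (Fin 6)) (hZ : ∀ j ∈ Z, y j = 0) (S : Finset Ix) {i : Fin 6}
    (hi : y i ≠ 0) (h : 5 < S.card + Z.card) (H : ∀ K : Subring T, Cl K → (∀ j, y j ∈ K) →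
      (∀ k ∉ S, lin y (a k) ∈ K) → ∀ k ∈ S, lin y (a k) ∈ K) : False := by
  refine cnt2 ha h1 Z hZ (S ×ˢ {i}) (by simpa using h) fun K hK hy hS k j hp => ?_
  obtain ⟨p1, p2⟩ := mem_product.1 hp
  obtain rfl : j = i := by simpa using p2
  have h2 := H K hK hy (fun k hk => sum_mem fun j _ => mul_mem (hS k j (by simp [hk])) (hy j)) k p1
  rw [lin, ← add_sum_erase _ _ (mem_univ j)] at h2
  refine hK (y j) _ 1 (hy j) hi one_ne_zero ?_
  rw [pow_one, mul_comm]
  exact (add_mem_cancel_right (sum_mem fun l hl =>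
    mul_mem (hS k l fun h => (mem_erase.1 hl).1 (mem_singleton.1 (mem_product.1 h).2))
      (hy l))).1 h2

omit ha h1 in
theorem dec : (∀ i0 : Fin 4, i0 + 1 ≠ i0 ∧ 5 < #(insert none (insert (some (.inr i0))
      ((univ.erase i0).image fun j => some (.inl j))) : Finset Ix) + #({ix i0} : Finset _)) ∧
    (∀ i0 i1 : Fin 4, i1 ≠ i0 → (∃ j, j ∉ ({i0, i1} : Finset (Fin 4))) ∧
      5 < #((({i0, i1} : Finset (Fin 4)).image fun j => (some (.inr j) : Ix)) ∪
        (({i0, i1} : Finset (Fin 4))ᶜ.image fun j => some (.inl j))) +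
          #({ix i0, ix i1} : Finset _)) ∧
    (∀ i0 i1 i2 : Fin 4, i1 ≠ i0 → i2 ∉ ({i0, i1} : Finset (Fin 4)) →
      ∃ l, ∀ j ≠ l, j = i0 ∨ j = i1 ∨ j = i2) ∧
    ∀ i l l' : Fin 4, ∃ j, j ∉ ({i, l'} : Finset (Fin 4)) ∧ j ≠ l :=
  ⟨by decide, by decide, by decide, by decide⟩

/-- The boundary strata. -/
theorem bdry (h0 : pp y ∅ = 0) (he : ∀ k, ee y (some k) * ss a y (some k) = 0)
    (hc : ∀ i, y (ix i) = 0 → cc a y i = 0) : False := by
  have nz : ∀ I : Finset (Fin 4), (∀ j ∉ I, y (ix j) ≠ 0) → pp y I ≠ 0 := fun I h =>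
    prod_ne_zero_iff.2 fun j hj => h j (mem_compl.1 hj)
  have hG : ∀ K : Subring T, Cl K → (∀ j, y j ∈ K) → ∀ i, y (ix i) ≠ 0 →
      lin y (a (some (.inl i))) ∈ K := fun K hK hy i hi => by
    refine hK _ _ 1 (hy _) hi one_ne_zero ?_
    rw [pow_one, eq_neg_of_add_eq_zero_right ((mul_eq_zero.1 (he (.inl i))).resolve_left hi)]
    exact neg_mem ((mem_all (a := a) hy).2.1 i)
  obtain ⟨i0, -, z0⟩ := prod_eq_zero_iff.1 h0
  by_cases c1 : ∀ j ≠ i0, y (ix j) ≠ 0
  · have n0 := nz {i0} (by simpa using c1)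
    refine cnt3 ha h1 {ix i0} (by simpa using z0) (insert none (insert (some (.inr i0))
      ((univ.erase i0).image fun j => some (.inl j)))) (c1 (i0 + 1) (dec.1 i0).1)
      (dec.1 i0).2 fun K hK hy hS k hk => ?_
    obtain ⟨m1, -, m3, -⟩ := mem_all (a := a) hy
    rcases mem_insert.1 hk with rfl | hk
    · refine hK _ _ 1 (m1 _) n0 one_ne_zero ?_
      rw [pow_one]
      exact eq_neg_of_add_eq_zero_right (hc i0 z0) ▸ neg_mem (add_mem
        (pow_mem (m3 _ (hS _ (by simp))) 2) (sum_mem fun l hl => mul_mem (m1 _)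
          (pow_mem (m3 _ (hS _ (by simpa using (mem_erase.1 hl).1))) 2)))
    rcases mem_insert.1 hk with rfl | hk
    · have h : lin y (a (some (.inr i0))) = 0 := (mul_eq_zero.1 (he (.inr i0))).resolve_left n0
      rw [h]
      exact zero_mem K
    · obtain ⟨j, hj, rfl⟩ := mem_image.1 hk
      exact hG K hK hy j (c1 j (mem_erase.1 hj).1)
  push Not at c1
  obtain ⟨i1, n1, z1⟩ := c1
  by_cases c2 : ∀ j ∉ ({i0, i1} : Finset (Fin 4)), y (ix j) ≠ 0
  · obtain ⟨j, hj⟩ := (dec.2.1 i0 i1 n1).1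
    refine cnt3 ha h1 {ix i0, ix i1} (by simp [z0, z1])
      ((({i0, i1} : Finset (Fin 4)).image fun j => some (.inr j)) ∪
        (({i0, i1} : Finset (Fin 4))ᶜ.image fun j => some (.inl j))) (c2 j hj)
      (dec.2.1 i0 i1 n1).2 fun K hK hy hS k hk => ?_
    obtain ⟨m1, -, m3, -⟩ := mem_all (a := a) hy
    have key : ∀ i i', i ≠ i' → y (ix i) = 0 → y (ix i') = 0 → pp y {i, i'} ≠ 0 →
        lin y (a (some (.inl i))) ∈ K → lin y (a (some (.inr i'))) ∈ K := by
      intro i i' n z' z p h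
      have := hc i z'
      rw [cc, pp_zero y (I := {i}) (by simpa using n.symm) z, zero_mul, add_zero,
        sum_eq_single_of_mem i' (by simpa using n.symm) fun l hl h' => by
          rw [pp_zero y (i := i') (by simp [n.symm, h'.symm]) z, zero_mul]] at this
      exact hK _ _ 2 (m1 _) p two_ne_zero
        (eq_neg_of_add_eq_zero_right this ▸ neg_mem (pow_mem (m3 _ h) 2))
    rcases mem_union.1 hk with hk | hk <;> obtain ⟨j, hj, rfl⟩ := mem_image.1 hk
    · rcases mem_insert.1 hj with rfl | hj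
      · exact key i1 j n1 z1 z0 (pair_comm i1 j ▸ nz _ c2) (hS _ (by simp))
      · obtain rfl := mem_singleton.1 hj
        exact key i0 j n1.symm z0 z1 (nz _ c2) (hS _ (by simp))
    · exact hG K hK hy j (c2 j (mem_compl.1 hj))
  push Not at c2
  obtain ⟨i2, n2, z2⟩ := c2
  obtain ⟨l, hl⟩ := dec.2.2.1 i0 i1 i2 n1 n2
  have z : ∀ j ≠ l, y (ix j) = 0 := fun j hj => by
    rcases hl j hj with rfl | rfl | rfl <;> assumption
  have key : ∀ i, y (ix i) = 0 → g0 y i = 0 := fun i hi => by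
    have e : ∀ l', pp y {i, l'} = 0 := fun l' => by
      obtain ⟨j, j1, j2⟩ := dec.2.2.2 i l l'
      exact pp_zero y j1 (z j j2)
    have e' := e i
    have := hc i hi
    simp only [insert_eq_of_mem (mem_singleton_self i)] at e'
    simpa [cc, e, e', ss, hi] using this
  have zl : y (ix l) = 0 := by
    have : (∑ j, y (ix j)) ^ 2 = 0 := by
      by_cases e : l = 2
      · exact key 3 (z 3 (by simp [e]))
      · exact key 2 (z 2 (Ne.symm e))
    rwa [pow_eq_zero_iff two_ne_zero, sum_eq_single l (fun j _ => z j) (by simp)] at this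
  have z' : ∀ j, y (ix j) = 0 := fun j => if h : j = l then h ▸ zl else z j h
  have w1 : y 1 = 0 := pow_eq_zero_iff two_ne_zero |>.1 (key 0 (z' 0))
  have w5 : y 5 = 0 := pow_eq_zero_iff two_ne_zero |>.1 (key 1 (z' 1))
  refine one_ne_zero (h1.symm.trans ?_)
  fin_cases j0
  exacts [z' 0, w1, z' 1, z' 2, z' 3, w5]

open MvPolynomial

omit ha h1 [CharZero T] in
/-- Polynomials whose value and first derivatives lie in a subring. -/
def Gd (y : Fin 6 → T) (K : Subring T) : Subring (MvPolynomial (Fin 6) T) where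
  carrier := {q | eval y q ∈ K ∧ ∀ j, eval y (pderiv j q) ∈ K}
  mul_mem' := fun {p q} hp hq => ⟨by rw [map_mul]; exact mul_mem hp.1 hq.1, fun j => by
    rw [pderiv_mul, map_add, map_mul, map_mul]
    exact add_mem (mul_mem (hp.2 j) hq.1) (mul_mem hp.1 (hq.2 j))⟩
  add_mem' := fun {p q} hp hq => ⟨by rw [map_add]; exact add_mem hp.1 hq.1, fun j => by
    rw [map_add, map_add]; exact add_mem (hp.2 j) (hq.2 j)⟩
  neg_mem' := fun {p} hp => ⟨by rw [map_neg]; exact neg_mem hp.1, fun j => by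
    rw [map_neg, map_neg]; exact neg_mem (hp.2 j)⟩
  one_mem' := ⟨by simp, by simp⟩
  zero_mem' := ⟨by simp, by simp⟩

omit ha h1 in
theorem gd_root {K : Subring T} (hK : Cl K) {c z : MvPolynomial (Fin 6) T} {n : ℕ}
    (hc : c ∈ Gd y K) (c0 : eval y c ≠ 0) (z0 : eval y z ^ n ≠ 0)
    (h : c * z ^ (n + 1) ∈ Gd y K) : z ∈ Gd y K := by
  have h1 : eval y z ∈ K := hK _ _ _ hc.1 c0 n.succ_ne_zero (by simpa using h.1)
  refine ⟨h1, fun j => hK (eval y c * ((n + 1 : ℕ) * eval y z ^ n)) _ 1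
    (mul_mem hc.1 (mul_mem (natCast_mem _ _) (pow_mem h1 _)))
    (mul_ne_zero c0 (mul_ne_zero (Nat.cast_ne_zero.2 n.succ_ne_zero) z0)) one_ne_zero ?_⟩
  have h2 := sub_mem (h.2 j) (mul_mem (hc.2 j) (pow_mem h1 (n + 1)))
  rw [pderiv_mul, pderiv_pow] at h2
  simpa [mul_assoc] using h2

omit ha h1 [CharZero T] in
/-- The quintic polynomial. -/
noncomputable def Phi (a : Ix → Fin 6 → T) : MvPolynomial (Fin 6) T := qf (fun k j => C (a k j)) X

omit ha h1 [CharZero T] in
theorem ev_ee (k : Ix) : eval y (ee X k) = ee y k := by simp [map_ee]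

omit ha h1 [CharZero T] in
theorem ev_ss (k : Ix) : eval y (ss (fun k j => C (a k j)) X k) = ss a y k := by simp [map_ss]

theorem singB (h0 : eval y (Phi a) = 0) (hd : ∀ j, eval y (pderiv j (Phi a)) = 0) (k : Ix) :
    ee y k * ss a y k ^ (dd k - 1) = 0 := by
  classical
  by_contra hk
  obtain ⟨n1, n2⟩ := mul_ne_zero_iff.1 hk
  refine cnt2 ha h1 ∅ (by simp) ({k} ×ˢ univ) (by simp) fun K hK hy hS k' j hp => ?_
  obtain rfl := mem_singleton.1 (mem_product.1 hp).1
  have hX : ∀ j, X j ∈ Gd y K := fun j => ⟨by simpa using hy j, fun l => by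
    rw [pderiv_X, Pi.single_apply]
    split_ifs <;> simp⟩
  have hC : ∀ c ∈ K, C c ∈ Gd y K := fun c hc => ⟨by simpa using hc, by simp⟩
  obtain ⟨-, m2, m3, m4⟩ := mem_all (a := fun k j => C (a k j)) hX
  have h2 : Phi a ∈ Gd y K := ⟨by rw [h0]; exact zero_mem K, fun j => by rw [hd]; exact zero_mem K⟩
  have e : dd k' = dd k' - 1 + 1 := by cases k' <;> rfl
  rw [Phi, qf, ← add_sum_erase _ _ (mem_univ k'), add_mem_cancel_right (sum_mem fun l hl =>
    mul_mem (m4 l) (pow_mem (m3 l (sum_mem fun i _ => mul_mem (hC _ (hS l i fun h =>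
      (mem_erase.1 hl).1 (mem_singleton.1 (mem_product.1 h).1))) (hX i))) _)), e] at h2
  have h3 := gd_root hK (m4 k') (by rwa [ev_ee]) (by rwa [ev_ss]) h2
  have h4 : lin X (fun j => C (a k' j)) ∈ Gd y K := by
    rcases k' with _ | i | i <;> rw [ss] at h3
    · exact h3
    · rw [add_mem_cancel_left (m2 i)] at h3
      exact gd_root (n := 0) hK (hX (ix i)) (by rwa [eval_X]) (by simp) (by rwa [zero_add, pow_one])
    · exact h3
  simpa [lin, pderiv_X, Pi.single_apply, apply_ite] using h4.2 j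

theorem sing (h0 : eval y (Phi a) = 0) (hd : ∀ j, eval y (pderiv j (Phi a)) = 0) : False := by
  have hB := singB ha h1 h0 hd
  have he : ∀ k, ee y (some k) * ss a y (some k) = 0 := fun k => by simpa [dd] using hB (some k)
  refine bdry ha h1 (by simpa [dd, ee] using hB none) he fun i hi => ?_
  have p1 : ∀ j ≠ i, pderiv (ix i) (X (ix j) : MvPolynomial (Fin 6) T) = 0 := fun j hj =>
    pderiv_X_of_ne fun h => hj ((by decide : Function.Injective ix) h)
  have p2 : ∀ k, pderiv (ix i) (ee X (some k) : MvPolynomial (Fin 6) T) = 0 → eval y (pderiv (ix i)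
      (ee X (some k) * ss (fun k j => C (a k j)) X (some k) ^ 2)) = 0 := fun k h => by
    rw [pderiv_mul, h, pderiv_pow]
    simp only [map_add, map_mul, map_pow, ev_ee, ev_ss, map_zero]
    linear_combination (eval y ((2 : ℕ) : MvPolynomial (Fin 6) T) *
      eval y (pderiv (ix i) (ss (fun k j => C (a k j)) X (some k)))) * he k
  have p3 := p2 (.inr i) (prod_induction _ (fun q => pderiv (ix i) q = 0)
    (fun p q hp hq => by simp [hp, hq]) (by simp) fun j hj => p1 j (by simpa using hj))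
  have := hd (ix i)
  rw [Phi, qf_cc _ _ i, map_add, map_add, map_add, map_add, map_sum, map_sum,
    sum_eq_zero fun j hj => p2 (.inl j) (p1 j (mem_erase.1 hj).1), p3, pderiv_mul] at this
  simpa [hi, map_cc] using this

omit ha h1 [CharZero T] in
theorem Phi_hom (a : Ix → Fin 6 → T) : (Phi a).IsHomogeneous 5 := by
  have h : ∀ i, (X i : MvPolynomial (Fin 6) T).IsHomogeneous 1 := isHomogeneous_X T
  have h2 : ∀ I, (pp X I : MvPolynomial (Fin 6) T).IsHomogeneous #Iᶜ := fun I => by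
    simpa [pp] using IsHomogeneous.prod Iᶜ (fun j => X (ix j)) (fun _ => 1) fun j _ => h _
  have h3 : ∀ k, (lin X fun j => C (a k j)).IsHomogeneous 1 := fun k =>
    IsHomogeneous.sum _ _ _ fun j _ => (h j).C_mul _
  have h4 : ∀ i, (g0 X i : MvPolynomial (Fin 6) T).IsHomogeneous 2 := fun i => by
    have := (IsHomogeneous.sum univ _ _ fun j _ => h (ix j)).pow 2
    fin_cases i
    exacts [(h 1).pow 2, (h 5).pow 2, this, this]
  refine IsHomogeneous.sum _ _ _ ?_
  rintro (_ | i | i) -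
  · exact (h2 ∅).mul ((h3 _).pow 1)
  · exact (h _).mul (((h4 i).add ((h _).mul (h3 _))).pow 2)
  · have := (h2 {i}).mul ((h3 (some (.inr i))).pow 2)
    rwa [card_compl, card_singleton] at this

omit ha h1 [CharZero T] in
theorem hom_div {φ : MvPolynomial (Fin 6) T} {n : ℕ} (h : φ.IsHomogeneous n) (t : T)
    (h0 : eval y φ = 0) : eval (fun j => y j * t) φ = 0 := by
  rw [← zero_mul (t ^ n), ← h0, eval_eq', eval_eq', sum_mul]
  refine sum_congr rfl fun d hd => ?_
  rw [← h (mem_support_iff.1 hd), Finsupp.weight_apply, Finsupp.sum_fintype _ _ (by simp)]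
  simp [mul_pow, prod_mul_distrib, prod_pow_eq_pow_sum, mul_assoc]

omit h1 in
theorem Phi_smooth (hy : y ≠ 0) (h0 : eval y (Phi a) = 0) :
    ∃ j, eval y (pderiv j (Phi a)) ≠ 0 := by
  by_contra! hd
  obtain ⟨j, hj⟩ := Function.ne_iff.1 hy
  exact sing ha (j0 := j) (mul_inv_cancel₀ hj) (hom_div (Phi_hom a) _ h0) fun l =>
    hom_div (Phi_hom a).pderiv _ (hd l)

end Count

end Pool.Agent.MP_5fa3de_ag.Q5
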