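import Pool.Agent.MP_5fa3de_ag.Main
import Pool.Agent.MP_5fa3de_ag.Q5.Gen

/-! The symbol of the four distinguished coordinates is unramified on the quintic. -/

namespace Pool.Agent.MP_5fa3de_ag.Q5

open Finset IsLocalRing

section Sym

variable (E : Type) {T : Type} [Field E] [Field T] [Algebra E T] [IsAlgClosed T] [CharZero T]
  [Algebra.IsIntegral E T]

/-- The symbol. -/
noncomputable def al (x : Fin 4 → T) : H3 (T ≃ₐ[E] T) :=
  S E (sq (x 0 * x 1)) (x 0 * x 2) (x 0 * x 3)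

variable {E}

theorem al_congr {x r : Fin 4 → T} {u : T} (hx : ∀ i, Un E (x i)) (hr : ∀ i, Un E (r i))
    (hu : Un E u) : al E (fun i => x i * u * r i ^ 2) = al E x := by
  have h : ∀ i, chi E (x 0 * u * r 0 ^ 2 * (x i * u * r i ^ 2)) = chi E (x 0 * x i) := fun i => by
    have h1 := (hu.mul (hr 0)).mul (hr i)
    funext g
    rw [show x 0 * u * r 0 ^ 2 * (x i * u * r i ^ 2) =
      x 0 * x i * (u * r 0 * r i * (u * r 0 * r i)) by ring,
      chi_mul ((hx 0).mul (hx i)) (h1.mul h1), chi_sq h1, add_zero]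
  unfold al S
  exact cl3_congr _ _ _ _ _ _ (by rw [sq_sq, sq_sq, h]) (h 2) (h 3)

theorem pfister {β b c i : T} (hβ : Un E (β ^ 2)) (hb : Un E b) (hc : Un E c) (fi : Fx E i)
    (hi : i * i = -1) (p q : Fin 4 → T) (fp : ∀ l, Fx E (p l)) (fq : ∀ l, Fx E (q l))
    (h0 : ¬ ∀ l, p l = 0 ∧ q l = 0)
    (h : p 0 ^ 2 + β ^ 2 * q 0 ^ 2 + c * (p 1 ^ 2 + β ^ 2 * q 1 ^ 2) +
      b * (p 2 ^ 2 + β ^ 2 * q 2 ^ 2 + c * (p 3 ^ 2 + β ^ 2 * q 3 ^ 2)) = 0) : S E β b c = 0 := by
  have i0 : Un E i := ⟨by rintro rfl; simp at hi, fi⟩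
  by_cases fβ : Fx E β
  · refine cl3_zero _ _ _ fun g _ _ => ?_
    rw [chi_eq (c := 0) hβ rfl (by simp [fβ g]), zero_mul, zero_mul]
  have e : ∀ l, p l ^ 2 + β ^ 2 * q l ^ 2 = (p l + i * β * q l) * (p l - i * β * q l) :=
    fun l => by linear_combination (β ^ 2 * q l ^ 2) * hi
  have hn : ∀ l, Nm E β (p l ^ 2 + β ^ 2 * q l ^ 2) := fun l =>
    ⟨_, _, fun g => ⟨fun h => by simp [h, fi g, fp l g, fq l g],
      fun h => by simp [h, fi g, fp l g, fq l g, sub_eq_add_neg]⟩, e l⟩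
  have hz : ∀ l, p l ^ 2 + β ^ 2 * q l ^ 2 = 0 → p l = 0 ∧ q l = 0 := fun l h => by
    by_cases q0 : q l = 0
    · exact ⟨by simpa [q0] using h, q0⟩
    refine (fβ fun g => ?_).elim
    have : (i * p l / q l) ^ 2 = β ^ 2 := by
      field_simp
      linear_combination p l ^ 2 * hi - h
    rcases sq_eq_sq_iff_eq_or_eq_neg.1 this.symm with h | h <;> simp [h, fi g, fp l g, fq l g]
  generalize hN : (fun l => p l ^ 2 + β ^ 2 * q l ^ 2) = n
  simp only [fun l => congrFun hN l] at h hn hz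
  have un : ∀ l, n l ≠ 0 → Un E (n l) := fun l h => ⟨h, (hn l).fx hβ.2⟩
  have k1 : ∀ l m, n l + c * n m = 0 → ¬ (n l = 0 ∧ n m = 0) → S E β b c = 0 := by
    intro l m h h'
    have m0 : n m ≠ 0 := fun e => h' ⟨by simpa [e] using h, e⟩
    have l0 : n l ≠ 0 := fun e => (hc.mul (un m m0)).1 (by simpa [e] using h)
    have := S_mul (b := β) hc (un m m0) b
    rw [show c * n m = i * i * n l by linear_combination h - n l * hi, S_mul (i0.mul i0) (un l l0),
      S_sq i0, S_norm hβ (hn l) l0, S_norm hβ (hn m) m0, add_zero, add_zero] at this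
    rw [S_comm, ← this]
  have fU : ∀ l m, Fx E (n l + c * n m) := fun l m g => by
    rw [map_add, map_mul, hc.2, (hn l).fx hβ.2, (hn m).fx hβ.2]
  have k2 : ∀ l m, n l + c * n m ≠ 0 → S E β c (n l + c * n m) = 0 := by
    intro l m h
    by_cases m0 : n m = 0
    · rw [m0, mul_zero, add_zero] at h ⊢
      rw [S_comm, S_norm hβ (hn l) h]
    · have := S_key hβ ⟨i, fi, hi⟩ (hc.mul (un m m0)) ⟨h, fU l m⟩ (by simpa using hn l)
      rwa [S_mul hc (un m m0), S_norm hβ (hn m) m0, add_zero] at this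
  by_cases V0 : n 2 + c * n 3 = 0
  · rw [V0, mul_zero, add_zero] at h
    by_contra hS
    have a1 := not_not.1 (mt (k1 0 1 h) hS)
    have a2 := not_not.1 (mt (k1 2 3 V0) hS)
    refine h0 fun l => hz l ?_
    fin_cases l
    exacts [a1.1, a1.2, a2.1, a2.2]
  · have uV : Un E (n 2 + c * n 3) := ⟨V0, fU 2 3⟩
    have e : n 0 + c * n 1 = i * i * (b * (n 2 + c * n 3)) := by
      linear_combination h - b * (n 2 + c * n 3) * hi
    have := k2 0 1 (e ▸ ((i0.mul i0).mul (hb.mul uV)).1)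
    rwa [e, S_mul' (i0.mul i0) (hb.mul uV), S_comm, S_sq i0, S_mul' hb uV, k2 2 3 V0, zero_add,
      add_zero, S_comm] at this

theorem iso {y : Fin 6 → T} (hy : ∀ i, Un E (y (ix i))) {i : T} (fi : Fx E i) (hi : i * i = -1)
    (s : Fin 4 ⊕ Fin 4 → T) (fs : ∀ k, Fx E (s k)) (h0 : ¬ ∀ k, s k = 0)
    (h : ∑ k, ee y (some k) * s k ^ 2 = 0) : al E (fun i => y (ix i)) = 0 := by
  have e : ∀ l, pp y {l} = y (ix 0) * y (ix 1) * y (ix 2) * y (ix 3) / y (ix l) := fun l => by
    rw [eq_div_iff (hy l).1, mul_comm, ← insert_empty_eq, ← pp_ins y (notMem_empty l), pp,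
      compl_empty, Fin.prod_univ_four]
  have n0 := (hy 0).1
  have n1 := (hy 1).1
  have n2 := (hy 2).1
  have n3 := (hy 3).1
  refine pfister (by rw [sq_sq]; exact (hy 0).mul (hy 1)) ((hy 0).mul (hy 2)) ((hy 0).mul (hy 3))
    fi hi ![y (ix 0) * s (.inl 0), s (.inl 3), s (.inl 2), s (.inr 1)]
    ![s (.inl 1), s (.inr 2), s (.inr 3), s (.inr 0) / y (ix 0)] (fun l g => ?_) (fun l g => ?_)
    (fun h => h0 ?_) ?_
  · fin_cases l <;> simp [fs _ g, (hy 0).2 g]
  · fin_cases l <;> simp [fs _ g, (hy 0).2 g]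
  · simp only [Fin.forall_fin_succ, Sum.forall] at h ⊢
    simp [n0] at h
    simp [h]
  · simp only [Fintype.sum_sum_type, Fin.sum_univ_four, ee, e] at h
    simp only [sq_sq, Matrix.cons_val]
    field_simp at h ⊢
    linear_combination y (ix 0) * h

end Sym

section Val

variable {E : Type} [Field E] [CharZero E] (A : ValuationSubring (AlgebraicClosure E))

theorem unr_iso {y : Fin 6 → AlgebraicClosure E} (hy : ∀ i, Un E (y (ix i)))
    {i : AlgebraicClosure E} (fi : Fx E i) (hi : i * i = -1)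
    (s : Fin 4 ⊕ Fin 4 → AlgebraicClosure E)
    (fs : ∀ k, ∀ τ : A.decompositionSubgroup E, τ.1 (s k) = s k) (h0 : ¬ ∀ k, s k = 0)
    (h : ∑ k, ee y (some k) * s k ^ 2 = 0) : al E (fun i => y (ix i)) ∈ UnrAt E A := by
  let F := IntermediateField.fixedField (A.decompositionSubgroup E)
  let φ : A.decompositionSubgroup E →* (AlgebraicClosure E ≃ₐ[F] AlgebraicClosure E) :=
    { toFun := fun τ => AlgEquiv.ofRingEquiv (f := τ.1.toRingEquiv) fun z => z.2 τ
      map_one' := rfl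
      map_mul' := fun _ _ => rfl }
  have hφ : Continuous φ := by
    refine continuous_of_continuousAt_one _ ?_
    rw [ContinuousAt, map_one, Filter.tendsto_def]
    intro s hs
    obtain ⟨L, hL, h⟩ := (krullTopology_mem_nhds_one_iff _ _ s).1 hs
    let b := Module.finBasis F L
    have h1 : (⋂ i, Subtype.val ⁻¹' (MulAction.stabilizer (Gal E) (b i : AlgebraicClosure E) :
        Set (Gal E))) ∈ nhds (1 : A.decompositionSubgroup E) := Filter.iInter_mem.2 fun i =>
      ((stabilizer_isOpen_of_isIntegral _).preimage continuous_subtype_val).mem_nhds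
        (one_smul (Gal E) _)
    refine Filter.mem_of_superset h1 fun g hg => h ?_
    rw [SetLike.mem_coe, IntermediateField.mem_fixingSubgroup_iff]
    intro x hx
    have h2 : ((φ g).toLinearMap.comp L.val.toLinearMap) = L.val.toLinearMap :=
      b.ext fun i => Set.mem_iInter.1 hg i
    exact LinearMap.congr_fun h2 ⟨x, hx⟩
  have f1 : ∀ z, (∀ τ : A.decompositionSubgroup E, τ.1 z = z) → Fx F z := fun z h g =>
    g.commutes (⟨z, h⟩ : F)
  have f2 : ∀ z, Un E z → Un F z := fun z h => ⟨h.1, f1 z fun τ => h.2 τ.1⟩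
  have f3 : ∀ z, Un E z → (fun τ => chi F z (φ τ)) = fun τ => chi E z τ.1 := fun z h =>
    funext fun τ => chi_eq (f2 z h) (sq_sq z) (chi_spec h.2 (sq_sq z) τ.1)
  have := congrArg (H3.pull φ hφ) (iso (E := F) (fun i => f2 _ (hy i)) (f1 i fun τ => fi τ.1) hi s
    (fun k => f1 _ (fs k)) h0 h)
  rw [map_zero, al, S, pull_cl3] at this
  refine ⟨0, (map_zero _).trans (this.symm.trans ?_)⟩
  rw [al, S, pull_cl3]
  exact cl3_congr _ _ _ _ _ _ (f3 _ (by rw [sq_sq]; exact (hy 0).mul (hy 1)))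
    (f3 _ ((hy 0).mul (hy 2))) (f3 _ ((hy 0).mul (hy 3)))

theorem al_units (h2 : (2 : AlgebraicClosure E) ∉ A.nonunits) {x : Fin 4 → AlgebraicClosure E}
    (fx : ∀ i, Un E (x i)) (hx : ∀ i, A.valuation (x i) = 1) : al E x ∈ UnrAt E A := by
  have h : ∀ i, x 0 * x i ∈ A ∧ x 0 * x i ∉ A.nonunits := fun i => by
    rw [← A.valuation_le_one_iff, A.mem_nonunits_iff, map_mul, hx, hx]
    simp
  refine unr_units A h2 ?_ ?_ ?_ ((fx 0).mul (fx 2)).2 (h 2).1 (h 2).2 ((fx 0).mul (fx 3)).2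
    (h 3).1 (h 3).2 <;> rw [sq_sq]
  exacts [((fx 0).mul (fx 1)).2, (h 1).1, (h 1).2]

theorem unr_lt (h2 : (2 : AlgebraicClosure E) ∉ A.nonunits) {y : Fin 6 → AlgebraicClosure E}
    (uy : ∀ i, Un E (y (ix i))) {i : AlgebraicClosure E} (fi : Fx E i) (hi : i * i = -1)
    (s : Fin 4 ⊕ Fin 4 → AlgebraicClosure E) (fs : ∀ k, Fx E (s k)) {M : AlgebraicClosure E}
    (hq : ∑ k, ee y (some k) * s k ^ 2 + M = 0) (k : Fin 4 ⊕ Fin 4)
    (fw : Fx E (M / (ee y (some k) * s k ^ 2)))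
    (hk : A.valuation M < A.valuation (ee y (some k) * s k ^ 2)) :
    al E (fun i => y (ix i)) ∈ UnrAt E A := by
  classical
  have t0 : ee y (some k) * s k ^ 2 ≠ 0 := fun h => by simp [h] at hk
  have hw : M / (ee y (some k) * s k ^ 2) ∈ A.nonunits := by
    rw [A.mem_nonunits_iff, map_div₀]
    exact (div_lt_one₀ (zero_le.trans_lt hk)).2 hk
  have ew := mul_div_cancel₀ M t0
  generalize M / (ee y (some k) * s k ^ 2) = w at fw hw ew
  obtain ⟨u, u1, u2⟩ : ∃ u, u ^ 2 = 1 + w ∧ u - 1 ∈ A.nonunits := by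
    by_cases h : sq (1 + w) - 1 ∈ A.nonunits
    · exact ⟨_, sq_sq _, h⟩
    · refine ⟨-sq (1 + w), by rw [neg_sq, sq_sq], non_mul A h ?_⟩
      rw [show (sq (1 + w) - 1) * (-sq (1 + w) - 1) = -w by linear_combination -sq_sq (1 + w)]
      exact A.nonunits.neg_mem hw
  have u3 : ∀ τ : A.decompositionSubgroup E, τ.1 u = u := fun τ =>
    (Fx.pm (E := E) (fun g => by rw [u1, map_add, map_one, fw]) τ.1).resolve_right fun h => h2 (by
      have := A.nonunits.neg_mem (A.nonunits.add_mem u2 (nonD A τ u2))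
      rwa [map_sub, h, map_one, show -(u - 1 + (-u - 1)) = 2 by ring] at this)
  have u0 : u ≠ 0 := fun h => by simp [h, A.mem_nonunits_iff] at u2
  refine unr_iso A uy fi hi (fun l => s l * if l = k then u else 1) (fun l τ => ?_)
    (fun h => t0 ?_) ?_
  · split_ifs <;> simp [fs _ τ.1, u3]
  · simp [show s k = 0 by simpa [u0] using h k]
  · rw [← add_sum_erase _ _ (mem_univ k)] at hq ⊢
    rw [sum_congr rfl fun l hl => by rw [if_neg (mem_erase.1 hl).1, mul_one], if_pos rfl]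
    linear_combination hq + ew + ee y (some k) * s k ^ 2 * u1

omit [CharZero E] in
theorem ex_sq {b : Ix → Fin 6 → AlgebraicClosure E} {y : Fin 6 → AlgebraicClosure E}
    (bA : ∀ k j, b k j ∈ A) (yA : ∀ j, y j ∈ A) (hq : qf b y = 0) {i : Fin 4}
    (nz : y (ix i) ≠ 0) (hi : ¬ A.valuation (cc b y i) < 1) (c2 : ∀ k, A.valuation
      (ee y (some k) * ss b y (some k) ^ 2) ≤ A.valuation (pp y ∅ * ss b y none)) :
    (∀ j ≠ i, A.valuation (y (ix j)) = 1) ∧
      ∃ k, A.valuation (y (ix i)) = A.valuation (ss b y k ^ 2) := by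
  obtain ⟨m1, -, m3, m4⟩ := mem_all (a := b) (K := A.toSubring) yA
  replace m3 : ∀ k, ss b y k ∈ A := fun k => m3 k (sum_mem fun j _ => mul_mem (bA _ _) (yA j))
  have le : ∀ {z}, z ∈ A → A.valuation z ≤ 1 := fun h => (A.valuation_le_one_iff _).2 h
  have v0 : 0 < A.valuation (y (ix i)) := zero_lt_iff.2 (by simpa using nz)
  have a1 : A.valuation (y (ix i)) ≤ A.valuation (y (ix i) * cc b y i) := by
    rw [map_mul]; exact le_mul_of_one_le_right' (not_lt.1 hi)
  have a2 : A.valuation (pp y ∅ * ss b y none) =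
      A.valuation (y (ix i)) * (A.valuation (pp y {i}) * A.valuation (ss b y none)) := by
    rw [pp_ins y (notMem_empty i), map_mul, map_mul, mul_assoc, insert_empty_eq]
  have a3 : A.valuation (pp y {i}) = 1 := by
    have : A.valuation (y (ix i) * cc b y i) ≤ A.valuation (pp y ∅ * ss b y none) := by
      rw [mul_cc]
      exact Valuation.map_add_le _ (Valuation.map_add_le _ (c2 _)
        (Valuation.map_sum_le _ fun l _ => c2 _)) le_rfl
    replace this := a1.trans this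
    rw [a2, le_mul_iff_one_le_right v0] at this
    exact (le (m1 _)).antisymm (this.trans (mul_le_of_le_one_right' (le (m3 _))))
  have a4 : ∀ j ≠ i, A.valuation (y (ix j)) = 1 := fun j hj => (le (yA _)).antisymm (by
    rw [← a3, pp_ins y (i := j) (by simpa using hj), map_mul]
    exact mul_le_of_le_one_right' (le (m1 _)))
  obtain ⟨k, k1, k2⟩ : ∃ k, A.valuation (ee y (some k)) = 1 ∧
      ¬ A.valuation (ee y (some k) * ss b y (some k) ^ 2) < A.valuation (y (ix i)) := by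
    by_contra! h
    rw [qf_cc _ _ i] at hq
    rw [eq_neg_of_add_eq_zero_left hq, Valuation.map_neg] at a1
    exact a1.not_gt (Valuation.map_add_lt _ (Valuation.map_sum_lt _ v0.ne' fun j hj =>
      h _ (a4 j (mem_erase.1 hj).1)) (h _ a3))
  have k3 := (not_lt.1 k2).antisymm ((c2 k).trans (by
    rw [a2]; exact mul_le_of_le_one_right' (mul_le_one' a3.le (le (m3 _)))))
  rw [map_mul, k1, one_mul] at k3
  exact ⟨a4, _, k3⟩

variable {K : Type} [Field K] [CharZero K] (κ : K →+* AlgebraicClosure E) {a : Ix → Fin 6 → K}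

omit [CharZero E] in
theorem ex_cc (hA : ∀ c, κ c ∈ A) (ha : AlgebraicIndependent ℚ fun p : Ix × Fin 6 => a p.1 p.2)
    {y : Fin 6 → AlgebraicClosure E} (yA : ∀ j, y j ∈ A) {j0 : Fin 6} (h1 : y j0 = 1) {i : Fin 4}
    (hi : A.valuation (y (ix i)) ≠ 1) (c2 : ∀ k, A.valuation (ee y (some k) *
      ss (fun k j => κ (a k j)) y (some k) ^ 2) ≤
        A.valuation (pp y ∅ * ss (fun k j => κ (a k j)) y none)) :
    ∃ i, ¬ A.valuation (cc (fun k j => κ (a k j)) y i) < 1 := by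
  by_contra! hc
  obtain ⟨m1, -, m3, m4⟩ := mem_all (a := fun k j => κ (a k j)) (K := A.toSubring) yA
  have le : ∀ {z}, z ∈ A → A.valuation z ≤ 1 := fun h => (A.valuation_le_one_iff _).2 h
  let Y : Fin 6 → A := fun j => ⟨y j, yA j⟩
  let k : K →+* A := κ.codRestrict A hA
  have : CharZero (ResidueField A) :=
    charZero_of_injective_ringHom ((residue A).comp k).injective
  have hr : ∀ p : A, A.valuation (A.subtype p) < 1 → residue A p = 0 := fun p h =>
    (residue_eq_zero_iff _).2 ((A.valuation_lt_one_iff p).2 h)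
  have hM : A.valuation (pp y ∅) < 1 := by
    rw [pp_ins y (notMem_empty i), map_mul]
    exact (mul_le_of_le_one_right' (le (m1 _))).trans_lt ((le (yA _)).lt_of_ne hi)
  refine bdry (a := fun l j => residue A (k (a l j))) (y := fun j => residue A (Y j)) (j0 := j0)
    (ha.map' (f := ((residue A).comp k).toRatAlgHom) ((residue A).comp k).injective)
    ((congrArg _ (Subtype.ext h1)).trans (map_one _))
    ((map_pp Y _ _).symm.trans (hr _ (by rwa [map_pp]))) (fun l => ?_)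
    fun i _ => (map_cc (fun l j => k (a l j)) Y _ i).symm.trans (hr _ (by rw [map_cc]; exact hc i))
  have := hr (ee Y (some l) * ss (fun l j => k (a l j)) Y (some l) ^ 2) (by
    rw [map_mul, map_pow, map_ee, map_ss]
    refine (c2 l).trans_lt ?_
    rw [map_mul]
    exact (mul_le_of_le_one_right'
      (le (m3 _ (sum_mem fun j _ => mul_mem (hA _) (yA j))))).trans_lt hM)
  rw [map_mul, map_pow, map_ee, map_ss] at this
  simpa using this

theorem unr_int (hκ : ∀ c, Fx E (κ c)) (hA : ∀ c, κ c ∈ A)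
    (ha : AlgebraicIndependent ℚ fun p : Ix × Fin 6 => a p.1 p.2) (hi : ∃ i : K, i * i = -1)
    {y : Fin 6 → AlgebraicClosure E} (fy : ∀ j, Fx E (y j)) (yA : ∀ j, y j ∈ A) {j0 : Fin 6}
    (h1 : y j0 = 1) (nz : ∀ i, y (ix i) ≠ 0) (hq : qf (fun k j => κ (a k j)) y = 0) :
    al E (fun i => y (ix i)) ∈ UnrAt E A := by
  classical
  have h2 : (2 : AlgebraicClosure E) ∉ A.nonunits := fun h =>
    (A.mem_nonunits_iff_or.1 h).elim two_ne_zero fun h => h (by simpa [map_ofNat] using hA 2⁻¹)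
  have uy : ∀ i, Un E (y (ix i)) := fun i => ⟨nz i, fy _⟩
  have fs : ∀ k, Fx E (ss (fun k j => κ (a k j)) y k) := fun k g => by
    simpa only [RingHom.coe_coe, hκ _ g, fy _ g] using
      map_ss (fun k j => κ (a k j)) y (g : AlgebraicClosure E →+* AlgebraicClosure E) k
  have fe : ∀ k, Fx E (ee y k) := fun k g => by
    simpa only [RingHom.coe_coe, fy _ g] using
      map_ee y (g : AlgebraicClosure E →+* AlgebraicClosure E) k
  by_cases c1 : ∀ i, A.valuation (y (ix i)) = 1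
  · exact al_units A h2 uy c1
  by_cases c2 : ∃ k, A.valuation (pp y ∅ * ss (fun k j => κ (a k j)) y none) <
      A.valuation (ee y (some k) * ss (fun k j => κ (a k j)) y (some k) ^ 2)
  · obtain ⟨k, hk⟩ := c2
    obtain ⟨i, hi⟩ := hi
    have f0 : Fx E (pp y ∅) := fe none
    exact unr_lt A h2 uy (hκ i) (by rw [← map_mul, hi]; simp) _ (fun k => fs _)
      ((qf_eq _ _).symm.trans hq) k
      (fun g => by rw [map_div₀, map_mul, map_mul, map_pow, f0, fe, fs, fs]) hk
  push Not at c1 c2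
  obtain ⟨i, hi⟩ := c1
  obtain ⟨i, hi⟩ := ex_cc A κ hA ha yA h1 hi c2
  obtain ⟨a4, k, k3⟩ := ex_sq A (fun _ _ => hA _) yA hq (nz i) hi c2
  have f1 := fs k
  generalize ss (fun k j => κ (a k j)) y k = s at k3 f1
  have s0 : s ≠ 0 := fun h => nz i (by simpa [h] using k3)
  have us : ∀ j, Un E (if j = i then s⁻¹ else 1) := fun j => by
    split_ifs
    exacts [⟨inv_ne_zero s0, fun g => by rw [map_inv₀, f1]⟩, ⟨one_ne_zero, fun g => map_one g⟩]
  have u1 : Un E (1 : AlgebraicClosure E) := ⟨one_ne_zero, fun g => map_one g⟩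
  rw [← al_congr uy us u1]
  refine al_units A h2 (fun j => ?_) fun j => ?_
  · rw [pow_two]
    exact ((uy j).mul u1).mul ((us j).mul (us j))
  split_ifs with h
  · rw [h, mul_one, map_mul, k3, ← map_mul, ← mul_pow, mul_inv_cancel₀ s0, one_pow, map_one]
  · simpa using a4 j h

theorem qf_smul {R : Type} [Field R] (a : Ix → Fin 6 → R) (y : Fin 6 → R) (t : R)
    (h : qf a y = 0) : qf a (fun j => y j * t) = 0 := by
  have e : ∀ y, MvPolynomial.eval y (Phi a) = qf a y := fun y => by simp [Phi, map_qf]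
  rw [← e] at h ⊢
  exact hom_div (Phi_hom a) t h

/-- The symbol is unramified. -/
theorem unr (hκ : ∀ c, Fx E (κ c)) (hA : ∀ c, κ c ∈ A)
    (ha : AlgebraicIndependent ℚ fun p : Ix × Fin 6 => a p.1 p.2) (hi : ∃ i : K, i * i = -1)
    {y : Fin 6 → AlgebraicClosure E} (fy : ∀ j, Fx E (y j)) (nz : ∀ i, y (ix i) ≠ 0)
    (hq : qf (fun k j => κ (a k j)) y = 0) : al E (fun i => y (ix i)) ∈ UnrAt E A := by
  obtain ⟨j, hj, hm⟩ := scale A y fun h => nz 0 (h _)
  have ut : Un E (y j)⁻¹ := ⟨inv_ne_zero hj, fun g => by rw [map_inv₀, fy]⟩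
  rw [← al_congr (r := fun _ => 1) (fun i => ⟨nz i, fy _⟩)
    (fun _ => ⟨one_ne_zero, fun g => map_one g⟩) ut]
  simpa using unr_int A κ hκ hA ha hi (y := fun l => y l * (y j)⁻¹)
    (fun l g => by rw [map_mul, fy, ut.2]) (fun l => by simpa [div_eq_mul_inv] using hm l)
    (j0 := j) (mul_inv_cancel₀ hj) (fun i => mul_ne_zero (nz i) ut.1) (qf_smul _ _ _ hq)

end Val

end Pool.Agent.MP_5fa3de_ag.Q5
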