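import Mathlib.Algebra.Polynomial.Degree.IsMonicOfDegree
import Mathlib.Tactic.ComputeDegree
import Pool.Agent.MP_5fa3de_ag.Q5.Unr

/-! The symbol does not come from the ground field; the main theorem. -/

namespace Pool.Agent.MP_5fa3de_ag.Q5

open Finset Hahn

open Polynomial in
theorem mon {R : Type} [CommRing R] [Nontrivial R] (a : Ix → Fin 6 → R[X]) (y : Fin 6 → R[X])
    (ha : ∀ k j, (a k j).natDegree ≤ 0) (y0 : y 0 = 1) (y1 : y 1 = X)
    (hy : ∀ j ≠ 1, (y j).natDegree ≤ 0) : (qf a y).IsMonicOfDegree 4 := by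
  have h0 : ∀ j, (y (ix j)).natDegree ≤ 0 := fun j => hy _ (by revert j; decide)
  have h1 : ∀ j, (y j).natDegree ≤ 1 := fun j => by
    by_cases h : j = 1
    · rw [h, y1]; exact natDegree_X_le
    · exact (hy j h).trans zero_le_one
  have hl : ∀ k, (lin y (a k)).natDegree ≤ 1 := fun k => natDegree_sum_le_of_forall_le _ _
    fun j _ => natDegree_mul_le.trans (add_le_add (ha k j) (h1 j))
  have hp : ∀ I, (pp y I).natDegree ≤ 0 := fun I =>
    (natDegree_prod_le _ _).trans (sum_nonpos fun j _ => h0 j)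
  have he : ∀ k, (ee y k).natDegree ≤ 0 := by
    rintro (_ | i | i)
    exacts [hp _, h0 _, hp _]
  have hs : ∀ k ≠ some (.inl 0), (ss a y k).natDegree ≤ 1 := by
    rintro (_ | i | i) hk
    · exact hl _
    · refine natDegree_add_le_of_degree_le (le_trans ?_ zero_le_one)
        (natDegree_mul_le.trans (add_le_add (h0 i) (hl _)))
      have := natDegree_pow_le_of_le 2 (natDegree_sum_le_of_forall_le univ _ fun j _ => h0 j)
      fin_cases i
      exacts [(hk rfl).elim, natDegree_pow_le_of_le 2 (hy 5 (by decide)), this, this]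
    · exact hl _
  rw [qf, ← add_sum_erase _ _ (mem_univ (some (.inl 0)))]
  refine IsMonicOfDegree.add_right ?_ (Nat.lt_succ_of_le (natDegree_sum_le_of_forall_le _ _
    fun k hk => natDegree_mul_le.trans ((add_le_add (he k) (natDegree_pow_le_of_le _
      (hs k (mem_erase.1 hk).1))).trans (by cases k <;> simp [dd]))))
  change (y 0 * (y 1 ^ 2 + y 0 * _) ^ 2).IsMonicOfDegree (2 * 2)
  rw [y0, y1, one_mul, one_mul]
  exact ((isMonicOfDegree_X_pow R 2).add_right ((hl _).trans_lt one_lt_two)).pow 2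

/-- The point. -/
noncomputable def pt (w : Om) : Fin 6 → Om :=
  ![1, w, mo 2 1 0 0 0, mo 0 0 1 0 0, mo 0 0 1 1 0, mo 0 (-1) (-2) (-1) 4]

theorem expand {b : Ix → Fin 6 → Om} (h1 : b none 5 = mo (-6) 0 0 0 0)
    (h2 : ∀ k j, (k, j) ≠ (none, 5) → b k j ∈ Bd pr_mono) :
    ∃ c : ℕ → Om, (∀ i, c i ∈ Bd pr_mono) ∧ ∃ N, Ord N (gv (-4) 0 0 0 4) ∧ ∀ w, qf b (pt w) =
      w ^ 4 + (((c 3 * w + c 2) * w + c 1) * w + c 0) + N := by
  classical
  let B := Bd pr_mono
  let b' : Ix → Fin 6 → B := fun k j => if h : (k, j) = (none, 5) then 0 else ⟨b k j, h2 k j h⟩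
  let y : Fin 6 → Polynomial B := ![1, .X,
    .C ⟨mo 2 1 0 0 0, (ord_mo _ _ _ _ _).lv pr_mono (by simp)⟩, .C ⟨_, bd_mo 0 1 0 0⟩,
    .C ⟨_, bd_mo 0 1 1 0⟩, .C ⟨_, bd_mo (-1) (-2) (-1) 4⟩]
  have hm := mon (fun k j => .C (b' k j)) y (by simp) rfl rfl (by
    intro j hj
    fin_cases j <;> simp [y] at hj ⊢)
  refine ⟨fun i => (qf (fun k j => .C (b' k j)) y).coeff i, fun i => Subtype.property _,
    1 * mo 2 1 0 0 0 * mo 0 0 1 0 0 * mo 0 0 1 1 0 * (mo (-6) 0 0 0 0 * mo 0 (-1) (-2) (-1) 4),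
    ((((ord_one.mul (ord_mo _ _ _ _ _)).mul (ord_mo _ _ _ _ _)).mul (ord_mo _ _ _ _ _)).mul
      ((ord_mo _ _ _ _ _).mul (ord_mo _ _ _ _ _))).to (by simp; norm_num), fun w => ?_⟩
  have e := map_qf (fun k j => .C (b' k j)) y (Polynomial.eval₂RingHom B.subtype w)
  have e1 : (fun j => Polynomial.eval₂RingHom B.subtype w (y j)) = pt w := by
    funext j
    fin_cases j <;> simp [y, pt]
  have e2 : ∀ k, ss (fun k j => (b' k j : Om)) (pt w) (some k) = ss b (pt w) (some k) := by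
    rintro (i | i) <;> simp [ss, b']
  have e3 : ss b (pt w) none = ss (fun k j => (b' k j : Om)) (pt w) none +
      mo (-6) 0 0 0 0 * mo 0 (-1) (-2) (-1) 4 := by
    simp [ss, lin, Fin.sum_univ_six, b', h1, pt]
  have e4 : pp (pt w) ∅ = 1 * mo 2 1 0 0 0 * mo 0 0 1 0 0 * mo 0 0 1 1 0 := by
    rw [pp, compl_empty, Fin.prod_univ_four]; rfl
  rw [e1, Polynomial.coe_eval₂RingHom, Polynomial.eval₂_eq_sum_range, hm.1, sum_range_succ,
    ← hm.1, hm.2.coeff_natDegree, hm.1] at e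
  simp only [Polynomial.eval₂_C, Subring.coe_subtype, qf_eq _ (pt w), e2, sum_range_succ, sum_range_zero,
    Subring.coe_one] at e
  rw [qf_eq, e3, ← e4]
  linear_combination -e

section Root

variable {c : ℕ → Om} (hc : ∀ i, c i ∈ Bd pr_mono) {N : Om} (oN : Ord N (gv (-4) 0 0 0 4))

include hc oN

theorem root_ord {w : Om} (h : w ^ 4 + (((c 3 * w + c 2) * w + c 1) * w + c 0) + N = 0) :
    Ord w (gv (-1) 0 0 0 1) := by
  have key : ∀ m ≤ 0, Lv (pr 0) m w →
      Lv (pr 0) (m + m + m) (((c 3 * w + c 2) * w + c 1) * w + c 0) := fun m hm hw =>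
    (((((mul_comm w _ ▸ hw.bd (hc 3)).add (Lv.mono (hc 2) hm)).mul hw).add
      (Lv.mono (hc 1) (by linarith))).mul hw).add (Lv.mono (hc 0) (by linarith))
  have ng : ∀ {z : Om} {g}, Ord z g → Ord (-z) g := fun h => HahnSeries.orderTop_neg.trans h
  by_cases h1 : Lv (pr 0) (-1) w
  · refine Ord.root four_ne_zero ?_
    rw [show w ^ 4 = -(N + (((c 3 * w + c 2) * w + c 1) * w + c 0)) by linear_combination h]
    exact (ng (oN.add pr_mono (key _ (by simp) h1) (by simp; norm_num))).to (by simp)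
  · have o := ord_order (z := w) fun e => h1 fun g hg => by simp [e] at hg
    have h2 : pr 0 w.order < -1 := not_le.1 fun h => h1 (o.lv pr_mono h)
    have h3 := (o.pow 4).add pr_mono (key _ (by linarith) (o.lv pr_mono le_rfl))
      (by simp only [map_nsmul, nsmul_eq_mul]; push_cast; linarith)
    rw [eq_neg_of_add_eq_zero_left h] at h3
    have h4 := congrArg (pr 0) (h3.uniq (ng oN))
    simp only [map_nsmul, nsmul_eq_mul, pr0] at h4
    push_cast at h4
    linarith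

theorem root_uniq {w w' : Om} (h : w ^ 4 + (((c 3 * w + c 2) * w + c 1) * w + c 0) + N = 0)
    (h' : w' ^ 4 + (((c 3 * w' + c 2) * w' + c 1) * w' + c 0) + N = 0)
    (e : w'.coeff (gv (-1) 0 0 0 1) = w.coeff (gv (-1) 0 0 0 1)) : w' = w := by
  have o := root_ord hc oN h
  have o' := root_ord hc oN h'
  have oz := o'.div o
  rw [sub_self] at oz
  obtain ⟨ζ, hζ⟩ : ∃ ζ : O Gm ℂ, ζ = w' / w := ⟨⟨_, oz.ge⟩, rfl⟩
  have e1 : w' = ζ * w := by rw [hζ, div_mul_cancel₀ _ o.ne]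
  have e2 : Hahn.res ζ = 1 := by
    have := coeff_mul_of_le (a := 0) ζ.2 o.ge
    rw [zero_add, ← e1, e] at this
    exact (mul_eq_right₀ (HahnSeries.coeff_orderTop_ne o)).1 this.symm
  have o1 : Ord ((1 + ζ + ζ ^ 2 + ζ ^ 3 : O Gm ℂ) : Om) 0 :=
    (res_ne_zero_iff _).1 (by simp [e2]; norm_num)
  have l : Lv (pr 0) (-1) w := o.lv pr_mono le_rfl
  have l' : Lv (pr 0) (-1) w' := o'.lv pr_mono le_rfl
  have o2 := (o1.mul (o.pow 3)).add pr_mono ((((((l.mul l).add (l.mul l')).add (l'.mul l')).bd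
    (hc 3)).add (((l.add l').bd (hc 2)).mono (by norm_num))).add (Lv.mono (hc 1) (by norm_num)))
      (by simp; norm_num)
  refine sub_eq_zero.1 ((mul_eq_zero.1 ?_).resolve_right o2.ne)
  push_cast
  rw [e1] at h' ⊢
  linear_combination h' - h

end Root

theorem exists_w {b : Ix → Fin 6 → Om} (h1 : b none 5 = mo (-6) 0 0 0 0)
    (h2 : ∀ k j, (k, j) ≠ (none, 5) → b k j ∈ Bd pr_mono) (h3 : ∀ k j, b k j ∈ Ff) :
    ∃ w, qf b (pt w) = 0 ∧ Ord w (gv (-1) 0 0 0 1) ∧
      ∀ i, i = 1 ∨ i = 2 ∨ i = 3 → ∀ j, tw (pr i) (pt w j) = pt w j := by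
  obtain ⟨c, hc, N, oN, h⟩ := expand h1 h2
  obtain ⟨w, hw⟩ := IsAlgClosed.exists_root (k := Om) (.X ^ 4 + (((.C (c 3) * .X + .C (c 2)) * .X +
    .C (c 1)) * .X + .C (c 0)) + .C N) (by
      rw [show Polynomial.degree _ = 4 by compute_degree!]
      simp)
  simp only [Polynomial.IsRoot, Polynomial.eval_add, Polynomial.eval_mul, Polynomial.eval_pow,
    Polynomial.eval_X, Polynomial.eval_C] at hw
  refine ⟨w, (h w).trans hw, root_ord hc oN hw, fun i hi => ?_⟩
  have e1 : ex 1 = 1 := by simpa using ex_int 1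
  have e2 : ex (-1) = 1 := by simpa using ex_int (-1)
  have e3 : ex (-2) = 1 := by simpa using ex_int (-2)
  have k1 : (fun j => tw (pr i) (pt w j)) = pt (tw (pr i) w) := by
    funext j
    fin_cases j
    · exact map_one _
    · rfl
    all_goals
      refine tw_single _ _ ?_
      rcases hi with rfl | rfl | rfl <;> simp [e1, e2, e3, ex_zero]
  have k2 : (fun k j => tw (pr i) (b k j)) = b := by
    funext k j
    rcases hi with rfl | rfl | rfl
    exacts [fixF_tw (h3 k j).1, fixF_tw (h3 k j).2.1.1, fixF_tw (h3 k j).2.1.2]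
  have k3 := map_qf b (pt w) (tw (pr i))
  rw [k1, k2, h, h, hw, map_zero] at k3
  have k4 := root_uniq hc oN hw k3.symm (by
    rw [tw_coeff]
    rcases hi with rfl | rfl | rfl <;> simp [ex_zero])
  rw [k4] at k1
  exact congrFun k1

open MvPolynomial in
theorem ker_eq {K : Type} [Field K] (f : K →+* Om) (hf : ∀ c, f c ∈ Ff) {a : Ix → Fin 6 → K}
    {w : Om} (ow : Ord w (gv (-1) 0 0 0 1)) (hw : qf (fun k j => f (a k j)) (pt w) = 0)
    (p : MvPolynomial (Fin 5) K) : eval₂Hom f (fun i => pt w i.succ) p = 0 ↔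
      p ∈ Ideal.span {(aeval (Fin.cons 1 X) (Phi a) : MvPolynomial (Fin 5) K)} := by
  classical
  have e : (aeval (Fin.cons 1 X) (Phi a) : MvPolynomial (Fin 5) K) =
      qf (fun k j => C (a k j)) (Fin.cons 1 X) := by
    simpa [Phi] using map_qf (fun k j => C (a k j)) X
      (aeval (Fin.cons 1 X) : MvPolynomial (Fin 6) K →ₐ[K] MvPolynomial (Fin 5) K).toRingHom
  rw [e]
  have h0 : eval₂Hom f (fun i => pt w i.succ) (qf (fun k j => C (a k j)) (Fin.cons 1 X)) = 0 := by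
    rw [map_qf, ← hw]
    congr 1
    · simp
    · funext j
      refine Fin.cases ?_ (fun i => ?_) j <;> simp [pt]
  have hm : (finSuccEquiv K 4 (qf (fun k j => C (a k j)) (Fin.cons 1 X))).IsMonicOfDegree 4 := by
    have := map_qf (R := MvPolynomial (Fin 5) K) (fun k j => C (a k j)) (Fin.cons 1 X)
      (finSuccEquiv K 4 : MvPolynomial (Fin 5) K →+* Polynomial (MvPolynomial (Fin 4) K))
    simp only [RingHom.coe_coe] at this
    rw [this]
    refine mon _ _ (fun k j => ?_) (map_one _) finSuccEquiv_X_zero fun j hj => ?_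
    · rw [show finSuccEquiv K 4 (C (a k j)) = Polynomial.C (C (a k j)) from
        (finSuccEquiv K 4).commutes _, Polynomial.natDegree_C]
    · revert hj
      refine Fin.cases ?_ (Fin.cases ?_ fun i => ?_) j <;> simp [finSuccEquiv_X_succ]
  generalize qf (fun k j => C (a k j)) (Fin.cons 1 X) = Φ at h0 hm
  rw [Ideal.mem_span_singleton]
  refine ⟨fun hp => ?_, by rintro ⟨q, rfl⟩; rw [map_mul, h0, zero_mul]⟩
  have hdiv := Polynomial.modByMonic_add_div (finSuccEquiv K 4 p) (finSuccEquiv K 4 Φ)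
  have hdeg := Polynomial.natDegree_modByMonic_lt (finSuccEquiv K 4 p) hm.2 (fun h => by
    simpa [hm.1] using congrArg Polynomial.natDegree h)
  obtain ⟨r, hr⟩ := (finSuccEquiv K 4).surjective (finSuccEquiv K 4 p %ₘ finSuccEquiv K 4 Φ)
  obtain ⟨q, hq⟩ := (finSuccEquiv K 4).surjective (finSuccEquiv K 4 p /ₘ finSuccEquiv K 4 Φ)
  rw [← hr, hm.1, natDegree_finSuccEquiv] at hdeg
  rw [← hr, ← hq, ← map_mul, ← map_add] at hdiv
  obtain rfl := (finSuccEquiv K 4).injective hdiv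
  rw [map_add, map_mul, h0, zero_mul, add_zero, coe_eval₂Hom, eval₂_eq'] at hp
  obtain rfl : r = 0 := by
    by_contra r0
    have nz : ∀ d ∈ r.support, f (coeff d r) ≠ 0 := fun d hd => by
      simpa using mem_support_iff.1 hd
    obtain ⟨d, hd, d', hd', hne, he⟩ := two_terms r.support _
      (fun d => (f (coeff d r)).order + (d 0 • gv (-1) 0 0 0 1 + d 1 • gv 2 1 0 0 0 +
        d 2 • gv 0 0 1 0 0 + d 3 • gv 0 0 1 1 0 + d 4 • gv 0 (-1) (-2) (-1) 4))
      (support_nonempty.2 r0) (fun d hd => (ord_order (nz d hd)).mul (by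
        rw [Fin.prod_univ_five]
        exact ((((ow.pow _).mul ((ord_mo _ _ _ _ _).pow _)).mul ((ord_mo _ _ _ _ _).pow _)).mul
          ((ord_mo _ _ _ _ _).pow _)).mul ((ord_mo _ _ _ _ _).pow _))) hp
    have f1 := fun d hd => (ord_order (nz d hd)).fix (hf _).1
    have f2 := fun d hd => (ord_order (nz d hd)).fix (hf _).2.1.1
    have f3 := fun d hd => (ord_order (nz d hd)).fix (hf _).2.1.2
    have f4 := fun d hd => (ord_order (nz d hd)).fix (hf _).2.2
    have e1 := congrArg (pr 1) he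
    have e2 := congrArg (pr 2) he
    have e3 := congrArg (pr 3) he
    have e4 := congrArg (pr 4) he
    simp only [map_add, map_nsmul, f1 _ hd, f1 _ hd', f2 _ hd, f2 _ hd', f3 _ hd, f3 _ hd', f4 _ hd,
      f4 _ hd', pr1, pr2, pr3, pr4, nsmul_eq_mul] at e1 e2 e3 e4
    have b1 := (monomial_le_degreeOf 0 hd).trans_lt hdeg
    have b2 := (monomial_le_degreeOf 0 hd').trans_lt hdeg
    have g4 : d 0 + 4 * d 4 = d' 0 + 4 * d' 4 := by
      have : (d 0 + 4 * d 4 : ℚ) = d' 0 + 4 * d' 4 := by linarith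
      exact_mod_cast this
    have g1 : d 1 + d' 4 = d' 1 + d 4 := by
      have : (d 1 + d' 4 : ℚ) = d' 1 + d 4 := by linarith
      exact_mod_cast this
    have g3 : d 3 + d' 4 = d' 3 + d 4 := by
      have : (d 3 + d' 4 : ℚ) = d' 3 + d 4 := by linarith
      exact_mod_cast this
    have g2 : d 2 + d 3 + 2 * d' 4 = d' 2 + d' 3 + 2 * d 4 := by
      have : (d 2 + d 3 + 2 * d' 4 : ℚ) = d' 2 + d' 3 + 2 * d 4 := by linarith
      exact_mod_cast this
    refine hne (Finsupp.ext fun i => ?_)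
    fin_cases i <;> simp <;> omega
  exact ⟨q, zero_add _⟩

theorem exists_a : ∃ (f : ℂ →+* Om) (a : Ix → Fin 6 → ℂ), (∀ c, f c ∈ Ff) ∧
    (AlgebraicIndependent ℚ fun p : Ix × Fin 6 => a p.1 p.2) ∧ f (a none 5) = mo (-6) 0 0 0 0 ∧
    ∀ k j, (k, j) ≠ (none, 5) → f (a k j) ∈ Bd pr_mono ∧ f (a k j) ∈ FixF (pr 0) := by
  classical
  obtain ⟨ι⟩ := exists_iso
  obtain ⟨s, hs⟩ := exists_isTranscendenceBasis ℚ ℂ
  have : Infinite s := by
    rw [Cardinal.infinite_iff, ← IsAlgClosed.cardinal_eq_cardinal_transcendence_basis_of_aleph0_lt'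
      _ hs Cardinal.mk_le_aleph0 (Cardinal.mk_complex ▸ Cardinal.aleph0_lt_continuum),
      Cardinal.mk_complex]
    exact Cardinal.aleph0_le_continuum
  let e : Ix × Fin 6 ↪ s := (Fintype.equivFin _).toEmbedding.trans
    (Fin.valEmbedding.trans (Infinite.natEmbedding s))
  let g : ℂ →+* ℂ := ι.symm.toRingHom.comp ((HahnSeries.C : ℂ →+* Om).codRestrict Ff fun c =>
    ⟨single_mem _ rfl, ⟨single_mem _ rfl, single_mem _ rfl⟩, single_mem _ rfl⟩)
  let f : ℂ →+* Om := Ff.subtype.comp ι.toRingHom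
  let a : Ix × Fin 6 → ℂ := fun p => if p = (none, 5) then ι.symm ⟨_, mo_F (-6)⟩ else g (e p)
  have h1 : f (a (none, 5)) = mo (-6) 0 0 0 0 := by simp [a, f]
  have h2 : ∀ p ≠ (none, 5), f (a p) ∈ Bd pr_mono ∧ f (a p) ∈ FixF (pr 0) := fun p hp => by
    rw [show f (a p) = HahnSeries.single 0 (e p : ℂ) by simp [a, f, g, hp]]
    refine ⟨fun γ hγ => ?_, single_mem _ rfl⟩
    rw [HahnSeries.support_single_subset hγ, map_zero]
  refine ⟨f, fun k j => a (k, j), fun c => (ι c).2,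
    (AlgebraicIndependent.iff_transcendental_adjoin_image (none, 5)).2 ⟨?_, ?_⟩, h1,
    fun k j => h2 _⟩
  · convert ((hs.1.comp e e.injective).comp (fun j : {j // j ≠ (none, 5)} => j.1)
      Subtype.val_injective).map' (f := g.toRatAlgHom) g.injective using 1
    funext j
    exact if_neg j.2
  · rintro ⟨p, p0, hp⟩
    have h3 : ∀ z ∈ Algebra.adjoin ℚ (a '' {(none, 5)}ᶜ), f z ∈ FixF (pr 0) := by
      intro z hz
      induction hz using Algebra.adjoin_induction with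
      | mem x hx =>
        obtain ⟨q, hq, rfl⟩ := hx
        exact (h2 q hq).2
      | algebraMap r => rw [eq_ratCast, map_ratCast]; exact SubfieldClass.ratCast_mem _ r
      | add x y _ _ hx hy => rw [map_add]; exact add_mem hx hy
      | mul x y _ _ hx hy => rw [map_mul]; exact mul_mem hx hy
    have h4 := coeff_of_root (l := pr 0) (p := p.map (f.comp
      (algebraMap (Algebra.adjoin ℚ (a '' {(none, 5)}ᶜ)) ℂ)))
      ((Polynomial.map_ne_zero_iff (by exact f.injective.comp Subtype.val_injective)).2 p0)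
      (fun i => by rw [Polynomial.coeff_map]; exact h3 _ (p.coeff i).2) (z := f (a (none, 5)))
      (by rw [Polynomial.eval_map, ← Polynomial.hom_eval₂, ← Polynomial.aeval_def]
          exact (congrArg f hp).trans (map_zero f))
      (HahnSeries.coeff_orderTop_ne (h1 ▸ ord_mo _ _ _ _ _))
    simp at h4

theorem core {K E : Type} [Field K] [CharZero K] [Field E] [Algebra K E] (u : E →+* Om)
    {a : Ix → Fin 6 → K} (ha : AlgebraicIndependent ℚ fun p : Ix × Fin 6 => a p.1 p.2)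
    (hi : ∃ i : K, i * i = -1) (hE : ∀ i, i = 1 ∨ i = 2 ∨ i = 3 → (tw (pr i)).comp u = u)
    (f : K →+* Om) (hf : ∀ c, u (algebraMap K E c) = f c) (hK : ∀ c, f c ∈ Ff) {w : Om}
    (Y : Fin 6 → E) (hY : ∀ j, u (Y j) = pt w j) (hq : qf (fun k j => f (a k j)) (pt w) = 0) :
    NotOnto K E := by
  have : CharZero E := charZero_of_injective_algebraMap (algebraMap K E).injective
  let _ := u.toAlgebra
  let j : AlgebraicClosure E →ₐ[E] Om := IsAlgClosed.lift
  let η := algebraMap E (AlgebraicClosure E)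
  have jη : ∀ l, j (η (Y l)) = pt w l := fun l => (j.commutes _).trans (hY l)
  have fη : ∀ z, Fx E (η z) := fun z g => g.commutes z
  have f2 : ∀ l, Fx E (η (Y 0) * η (Y l)) := fun l => map_mul η _ _ ▸ fη _
  have o : ∀ l, j (η (Y 0) * η (Y l)) = pt w l := fun l => by
    rw [map_mul, jη, jη]; exact one_mul _
  refine notOnto K E (lt_of_le_of_ne (range_le K) fun h => nc (K := K) j
    (fun i hi => RingHom.congr_fun (hE i hi)) (fun i hi c => ?_)
    (b := sq (η (Y 0) * η (Y 2))) (by rw [sq_sq]; exact f2 2) (f2 3) (f2 4)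
    (by rw [sq_sq, o]; exact ord_mo _ _ _ _ _) (by rw [o]; exact ord_mo _ _ _ _ _)
    (by rw [o]; exact ord_mo _ _ _ _ _) ?_)
  · change u _ ∈ _
    rw [hf]
    rcases hi with rfl | rfl
    exacts [(hK c).2.1.1, (hK c).2.1.2]
  · rw [h]
    refine AddSubgroup.mem_iInf.2 fun A => AddSubgroup.mem_iInf.2 fun hA => ?_
    refine unr A (algebraMap K (AlgebraicClosure E)) (fun c => fη (algebraMap K E c)) hA.2 ha hi
      (y := fun l => η (Y l)) (fun l => fη _) (fun i h => ?_) (j.toRingHom.injective ?_)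
    · have := jη (ix i)
      rw [h, map_zero] at this
      fin_cases i
      exacts [one_ne_zero this.symm, (ord_mo _ _ _ _ _).ne this.symm,
        (ord_mo _ _ _ _ _).ne this.symm, (ord_mo _ _ _ _ _).ne this.symm]
    · rw [map_qf, map_zero, ← hq]
      congr 1
      · funext k l
        exact (j.commutes (algebraMap K E (a k l))).trans (hf _)
      · exact funext jη

open MvPolynomial in
theorem fails {a : Ix → Fin 6 → ℂ} (ha : AlgebraicIndependent ℚ fun p : Ix × Fin 6 => a p.1 p.2)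
    (f : ℂ →+* Om) (hf : ∀ c, f c ∈ Ff) {w : Om} (hw : qf (fun k j => f (a k j)) (pt w) = 0)
    (ht : ∀ i, i = 1 ∨ i = 2 ∨ i = 3 → ∀ j, tw (pr i) (pt w j) = pt w j)
    (Φ : MvPolynomial (Fin 6) ℂ) (hk : ∀ p, eval₂Hom f (fun i : Fin 5 => pt w i.succ) p = 0 ↔
      p ∈ Ideal.span {(aeval (Fin.cons 1 X) Φ : MvPolynomial (Fin 5) ℂ)}) : Fails ℂ Φ := by
  let t : Crd ℂ Φ →+* Om := Ideal.Quotient.lift _ _ fun p hp => (hk p).2 hp
  have it : Function.Injective t :=
    RingHom.lift_injective_of_ker_le_ideal _ _ fun p hp => (hk p).1 hp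
  have hd : IsDomain (Crd ℂ Φ) := it.isDomain t
  refine ⟨hd, ?_⟩
  obtain ⟨u, e⟩ : ∃ u : FF ℂ Φ →+* Om, ∀ p, u (algebraMap (Crd ℂ Φ) _ (Ideal.Quotient.mk _ p)) =
      eval₂Hom f (fun i => pt w i.succ) p :=
    ⟨IsFractionRing.lift it, fun p => IsFractionRing.lift_algebraMap it _⟩
  refine core u ha ⟨Complex.I, Complex.I_mul_I⟩ (fun i hi => ?_) f
    (fun c => (e (C c)).trans (eval₂Hom_C _ _ _)) hf
    (Fin.cons 1 fun i => algebraMap (Crd ℂ Φ) _ (Ideal.Quotient.mk _ (X i)))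
    (Fin.cases (map_one _) fun i => (e _).trans (eval₂Hom_X' _ _ _)) hw
  have : (tw (pr i)).comp (eval₂Hom f fun i : Fin 5 => pt w i.succ) =
      eval₂Hom f fun i : Fin 5 => pt w i.succ := by
    refine MvPolynomial.ringHom_ext (fun c => ?_) fun n => ?_
    · rw [RingHom.comp_apply, eval₂Hom_C]
      rcases hi with rfl | rfl | rfl
      exacts [fixF_tw (hf c).1, fixF_tw (hf c).2.1.1, fixF_tw (hf c).2.1.2]
    · rw [RingHom.comp_apply, eval₂Hom_X', ht i hi]
  refine IsFractionRing.ringHom_ext (A := Crd ℂ Φ) fun c => ?_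
  obtain ⟨p, rfl⟩ := Ideal.Quotient.mk_surjective c
  exact (congrArg (tw (pr i)) (e p)).trans ((RingHom.congr_fun this p).trans (e p).symm)

theorem main : ∃ Φ : MvPolynomial (Fin 6) ℂ, Φ.IsHomogeneous 5 ∧ Smooth Φ ∧ Fails ℂ Φ := by
  obtain ⟨f, a, hf, ha, h1, h2⟩ := exists_a
  obtain ⟨w, hw, ow, ht⟩ := exists_w (b := fun k j => f (a k j)) h1 (fun k j h => (h2 k j h).1)
    fun k j => hf _
  exact ⟨Phi a, Phi_hom a, fun x hx h0 => Phi_smooth ha hx h0,
    fails ha f hf hw ht _ (ker_eq f hf ow hw)⟩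

end Pool.Agent.MP_5fa3de_ag.Q5
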